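import Mathlib

/-!
MP_dbd540_gt (closed simply connected symplectic 4-manifolds with `3 σ = χ`).

(1) Question 1 (only `ℂℙ²` lies on the line `3 σ = χ`) holds if and only if every closed simply
connected symplectic 4-manifold except `ℂℙ²` satisfies the strict Bogomolov-Miyaoka-Yau
inequality `3 σ < χ`.
(2)-(4) One manifold with `χ ≤ 3 σ` which contains a symplectic torus of square `0` with simply
connected complement fills the geography of simply connected symplectic 4-manifolds up to the line.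
-/

set_option autoImplicit false

namespace Pool.Agent.Results.MP_dbd540_gt.OneExampleFillsGeography

/-- The closed simply connected symplectic 4-manifolds together with the published facts used.
`X`: the closed simply connected oriented smooth 4-manifolds which carry a symplectic form inducing
the orientation, up to orientation preserving diffeomorphism. -/
structure SymplecticManifolds where
  X : Type
  /-- Euler characteristic -/
  chi : X → ℤ
  /-- signature -/
  sigma : X → ℤ
  /-- for some symplectic form there is an embedded symplectic torus of self-intersection `0` with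
  simply connected complement -/
  Torus : X → Prop
  /-- the complex projective plane -/
  cp2 : X
  chi_cp2 : chi cp2 = 3
  sigma_cp2 : sigma cp2 = 1
  /-- Noether: `χ + σ = 2 + 2 b⁺` and `b⁺` is odd -/
  noether : ∀ M, 4 ∣ chi M + sigma M
  /-- `|σ| ≤ b₂ = χ - 2` -/
  betti : ∀ M, |sigma M| ≤ chi M - 2
  /-- blowing up a point (outside the torus) -/
  blowUp : ∀ M, ∃ N, chi N = chi M + 1 ∧ sigma N = sigma M - 1 ∧ (Torus M → Torus N)
  /-- Gompf's symplectic sum along the tori -/
  sum : ∀ M N, Torus M → Torus N →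
    ∃ P, Torus P ∧ chi P = chi M + chi N ∧ sigma P = sigma M + sigma N
  /-- the rational elliptic surface with a fibre -/
  elliptic : ∃ M, Torus M ∧ chi M = 12 ∧ sigma M = -8
  /-- a manifold with such a torus and `c₁² > 0` -/
  gompf : ∃ M, Torus M ∧ 0 < 2 * chi M + 3 * sigma M

variable (S : SymplecticManifolds)

/-- the pair `(c, s)` is `(χ, σ)` of a manifold containing a torus as above -/
def Realised (c s : ℤ) : Prop := ∃ M : S.X, S.Torus M ∧ S.chi M = c ∧ S.sigma M = s

/-- the same in the coordinates `x = (χ + σ)/4`, `y = c₁²` -/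
private def R (x y : ℤ) : Prop := Realised S (12 * x - y) (y - 8 * x)

variable {S}

private lemma R_of {M : S.X} (hM : S.Torus M) :
    ∃ x y, S.chi M = 12 * x - y ∧ S.sigma M = y - 8 * x ∧ R S x y := by
  obtain ⟨x, hx⟩ := S.noether M
  refine ⟨x, 2 * S.chi M + 3 * S.sigma M, by omega, by omega, M, hM, by omega, by omega⟩

private lemma R_add {x y x' y' : ℤ} (h : R S x y) (h' : R S x' y') : R S (x + x') (y + y') := by
  obtain ⟨M, hM, h1, h2⟩ := h
  obtain ⟨N, hN, h3, h4⟩ := h'
  obtain ⟨P, hP, h5, h6⟩ := S.sum M N hM hN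
  exact ⟨P, hP, by omega, by omega⟩

private lemma R_one : R S 1 0 := by
  obtain ⟨M, hM, h1, h2⟩ := S.elliptic
  exact ⟨M, hM, by omega, by omega⟩

private lemma R_blow {x y : ℤ} (h : R S x y) (k : ℕ) : R S x (y - k) := by
  induction k with
  | zero => simpa using h
  | succ k ih =>
    obtain ⟨M, hM, h1, h2⟩ := ih
    obtain ⟨N, h3, h4, h5⟩ := S.blowUp M
    exact ⟨N, h5 hM, by push_cast; omega, by push_cast; omega⟩

private lemma R_mul {x y : ℤ} (h : R S x y) (n : ℕ) :
    R S ((n + 1 : ℕ) * x) ((n + 1 : ℕ) * y) := by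
  induction n with
  | zero => simpa using h
  | succ n ih =>
    have := R_add ih h
    have e1 : ((n + 1 : ℕ) : ℤ) * x + x = ((n + 1 + 1 : ℕ) : ℤ) * x := by push_cast; ring
    have e2 : ((n + 1 : ℕ) : ℤ) * y + y = ((n + 1 + 1 : ℕ) : ℤ) * y := by push_cast; ring
    rwa [e1, e2] at this

private lemma R_mul' {x y : ℤ} (h : R S x y) {n : ℤ} (hn : 1 ≤ n) : R S (n * x) (n * y) := by
  obtain ⟨m, rfl⟩ : ∃ m : ℕ, n = (m + 1 : ℕ) := ⟨(n - 1).toNat, by push_cast; omega⟩
  exact R_mul h m

/-- adding an elliptic surface several times -/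
private lemma R_shift {x y : ℤ} (h : R S x y) {m : ℤ} (hm : 0 ≤ m) : R S (x + m) y := by
  rcases hm.eq_or_lt with h0 | h0
  · simpa [← h0] using h
  · have := R_add h (R_mul' R_one h0)
    simpa using this

private lemma R_unit : ∃ x, R S x 1 := by
  obtain ⟨M, hM, h0⟩ := S.gompf
  obtain ⟨x, y, h1, h2, h3⟩ := R_of hM
  refine ⟨x, ?_⟩
  have := R_blow h3 (y - 1).toNat
  have e : y - ((y - 1).toNat : ℤ) = 1 := by omega
  rwa [e] at this

/-- there is `A` such that `(x, r)` is realised for `0 ≤ r ≤ y₀` and `x ≥ A` -/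
private lemma R_low (y0 : ℤ) : ∃ A, 1 ≤ A ∧ ∀ x r, 0 ≤ r → r ≤ y0 → A ≤ x → R S x r := by
  obtain ⟨x1, h1⟩ := R_unit (S := S)
  refine ⟨1 + |y0| * |x1|, ?_, ?_⟩
  · have : 0 ≤ |y0| * |x1| := by positivity
    omega
  intro x r hr hr0 hx
  rcases hr.eq_or_lt with h0 | h0
  · subst h0
    have hx1 : 1 ≤ x := by
      have : 0 ≤ |y0| * |x1| := by positivity
      omega
    simpa using R_mul' R_one hx1
  · have h2 : R S (r * x1) (r * 1) := R_mul' h1 h0
    have h3 : r * x1 ≤ |y0| * |x1| := by
      calc r * x1 ≤ |r * x1| := le_abs_self _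
        _ = |r| * |x1| := abs_mul _ _
        _ ≤ |y0| * |x1| := by
          apply mul_le_mul_of_nonneg_right _ (abs_nonneg _)
          rw [abs_of_pos h0]
          exact hr0.trans (le_abs_self _)
    have h4 := R_shift h2 (m := x - r * x1) (by omega)
    simpa using h4

/-- a point above or on the line in these coordinates -/
private lemma pos_of {M : S.X} {x y : ℤ} (h : S.chi M ≤ 3 * S.sigma M)
    (h1 : S.chi M = 12 * x - y) (h2 : S.sigma M = y - 8 * x) : 0 < x ∧ 9 * x ≤ y := by
  have h3 := S.betti M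
  have h4 := le_abs_self (S.sigma M)
  have h5 := abs_nonneg (S.sigma M)
  constructor <;> omega

private lemma toR {c s : ℤ} (h : 4 ∣ c + s) :
    ∃ x y, c = 12 * x - y ∧ s = y - 8 * x := by
  obtain ⟨x, hx⟩ := h
  exact ⟨x, 2 * c + 3 * s, by omega, by omega⟩

private lemma blow_many (M : S.X) (k : ℕ) :
    ∃ N : S.X, S.chi N = S.chi M + k ∧ S.sigma N = S.sigma M - k := by
  induction k with
  | zero => exact ⟨M, by simp, by simp⟩
  | succ k ih =>
    obtain ⟨N, h1, h2⟩ := ih
    obtain ⟨P, h3, h4, -⟩ := S.blowUp N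
    exact ⟨P, by push_cast; omega, by push_cast; omega⟩

/-- the division step -/
private lemma R_div {x0 y0 x y A : ℤ} (h0 : R S x0 y0) (hy0 : 0 < y0) (hy : 0 ≤ y)
    (hA : ∀ x r, 0 ≤ r → r ≤ y0 → A ≤ x → R S x r) (hx : A ≤ x - (y / y0) * x0) : R S x y := by
  have hr := Int.emod_nonneg y hy0.ne'
  have hr' := Int.emod_lt_of_pos y hy0
  have hn : 0 ≤ y / y0 := Int.ediv_nonneg hy hy0.le
  have h1 := hA _ _ hr hr'.le hx
  have e := Int.emod_add_mul_ediv y y0
  rcases hn.eq_or_lt with hn | hn
  · rw [← hn] at h1 e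
    have e' : y % y0 = y := by simpa using e
    rw [e'] at h1
    simpa using h1
  · have h2 := R_add h1 (R_mul' h0 hn)
    have e2 : x - y / y0 * x0 + y / y0 * x0 = x := by ring
    have e3 : y % y0 + y / y0 * y0 = y := by rw [mul_comm (y / y0) y0]; exact e
    rwa [e2, e3] at h2

/-- **Closed simply connected symplectic 4-manifolds on or above the line `3 σ = χ`.** -/
theorem result (S : SymplecticManifolds) :
    -- (1) Question 1 is the strict inequality for all manifolds except `ℂℙ²`
    ((∀ M : S.X, 3 * S.sigma M = S.chi M → M = S.cp2) ↔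
      ∀ M : S.X, M ≠ S.cp2 → 3 * S.sigma M < S.chi M) ∧
    -- (2) with a torus: above or on the line, on the line, infinitely often on the line
    [∃ M : S.X, S.Torus M ∧ S.chi M ≤ 3 * S.sigma M,
      ∃ M : S.X, S.Torus M ∧ S.chi M = 3 * S.sigma M,
      ∀ C : ℤ, ∃ M : S.X, S.Torus M ∧ S.chi M = 3 * S.sigma M ∧ C ≤ S.chi M].TFAE ∧
    -- (3) one example fills the geography up to bounded distance from the line
    ((∃ M : S.X, S.Torus M ∧ S.chi M ≤ 3 * S.sigma M) →
      ∃ D : ℤ, ∀ c s : ℤ, 4 ∣ c + s → 0 ≤ 2 * c + 3 * s → 3 * s ≤ c - D → Realised S c s) ∧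
    -- (4) one example above the line fills it up to and including the line, with finitely many
    -- exceptions
    ((∃ M : S.X, S.Torus M ∧ S.chi M < 3 * S.sigma M) →
      ∃ C : ℤ, ∀ c s : ℤ, 4 ∣ c + s → 0 ≤ 2 * c + 3 * s → 3 * s ≤ c → C ≤ c →
        Realised S c s) := by
  refine ⟨⟨?_, ?_⟩, ?_, ?_, ?_⟩
  · intro h M hM
    by_contra hcon
    push Not at hcon
    obtain ⟨a, ha⟩ := S.noether M
    obtain ⟨k, hk⟩ : ∃ k : ℕ, (k : ℤ) = S.sigma M - a := ⟨(S.sigma M - a).toNat, by omega⟩
    obtain ⟨N, h1, h2⟩ := blow_many M k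
    have h3 : N = S.cp2 := h N (by omega)
    have h4 := S.chi_cp2
    have h5 := S.sigma_cp2
    rw [h3] at h1 h2
    have h6 := S.betti M
    have h7 := le_abs_self (S.sigma M)
    rcases Nat.eq_zero_or_pos k with h8 | h8
    · apply hM
      apply h
      subst h8
      push_cast at h1 h2 hk
      omega
    · omega
  · intro h M hM
    by_contra hcon
    have := h M hcon
    omega
  · tfae_have 1 → 2 := by
      rintro ⟨M, hM, h⟩
      obtain ⟨x, y, h1, h2, h3⟩ := R_of hM
      obtain ⟨hx, hy⟩ := pos_of h h1 h2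
      have h4 := R_blow h3 (y - 9 * x).toNat
      have e : y - ((y - 9 * x).toNat : ℤ) = 9 * x := by omega
      rw [e] at h4
      obtain ⟨N, hN, h5, h6⟩ := h4
      exact ⟨N, hN, by omega⟩
    tfae_have 2 → 3 := by
      rintro ⟨M, hM, h⟩ C
      obtain ⟨x, y, h1, h2, h3⟩ := R_of hM
      obtain ⟨hx, hy⟩ := pos_of h.le h1 h2
      obtain ⟨N, hN, h5, h6⟩ := R_mul' h3 (n := |C| + 1) (by have := abs_nonneg C; omega)
      have e : y = 9 * x := by omega
      subst e
      refine ⟨N, hN, ?_, ?_⟩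
      · rw [h5, h6]; ring
      · have h7 : (|C| + 1) * 1 ≤ (|C| + 1) * x :=
          mul_le_mul_of_nonneg_left (by omega) (by have := abs_nonneg C; omega)
        have h8 := le_abs_self C
        have h9 : 12 * ((|C| + 1) * x) - (|C| + 1) * (9 * x) = 3 * ((|C| + 1) * x) := by ring
        have h10 := abs_nonneg C
        rw [h5, h9]
        omega
    tfae_have 3 → 1 := by
      intro h
      obtain ⟨M, hM, h1, -⟩ := h 0
      exact ⟨M, hM, h1.le⟩
    tfae_finish
  · rintro ⟨M, hM, h⟩
    obtain ⟨x0, y0, h1, h2, h3⟩ := R_of hM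
    obtain ⟨hx0, hy0⟩ := pos_of h h1 h2
    obtain ⟨A, hA1, hA⟩ := R_low (S := S) y0
    refine ⟨36 * A, ?_⟩
    intro c s h4 h5 h6
    obtain ⟨x, y, rfl, rfl⟩ := toR h4
    have hy : 0 ≤ y := by omega
    have h7 : 9 * A ≤ 9 * x - y := by omega
    refine R_div h3 (by omega) hy hA ?_
    have e := Int.emod_add_mul_ediv y y0
    have hr := Int.emod_nonneg y (by omega : y0 ≠ 0)
    have hn : 0 ≤ y / y0 := Int.ediv_nonneg hy (by omega)
    have h8 : (y / y0) * (9 * x0) ≤ (y / y0) * y0 := mul_le_mul_of_nonneg_left hy0 hn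
    have h9 : (y / y0) * (9 * x0) = 9 * ((y / y0) * x0) := by ring
    have h10 : (y / y0) * y0 = y0 * (y / y0) := mul_comm _ _
    omega
  · rintro ⟨M, hM, h⟩
    obtain ⟨x0, y0, h1, h2, h3⟩ := R_of hM
    obtain ⟨hx0, hy0⟩ := pos_of h.le h1 h2
    have hy1 : 9 * x0 + 1 ≤ y0 := by omega
    obtain ⟨A, hA1, hA⟩ := R_low (S := S) y0
    refine ⟨12 * (y0 * A), ?_⟩
    intro c s h4 h5 h6 h7
    obtain ⟨x, y, rfl, rfl⟩ := toR h4
    have hy : 0 ≤ y := by omega
    have h8 : y ≤ 9 * x := by omega
    have h9 : y0 * A ≤ x := by omega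
    refine R_div h3 (by omega) hy hA ?_
    have e := Int.emod_add_mul_ediv y y0
    have hr := Int.emod_nonneg y (by omega : y0 ≠ 0)
    have hy0' : 0 < y0 := by omega
    -- multiply by `y0`
    have h10 : y0 * A ≤ y0 * (x - y / y0 * x0) := by
      have h11 : y0 * (y / y0) * x0 ≤ (9 * x) * x0 :=
        mul_le_mul_of_nonneg_right (by omega) hx0.le
      have hx : 0 ≤ x := by omega
      have h12 : x * (9 * x0 + 1) ≤ x * y0 := mul_le_mul_of_nonneg_left hy1 hx
      nlinarith [h11, h12, h9]
    exact le_of_mul_le_mul_left h10 hy0'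

end Pool.Agent.Results.MP_dbd540_gt.OneExampleFillsGeography
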